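import Pool.Agent.Helper49.QI.Defs
import Pool.Agent.Helper28.QU.P6
import Pool.Agent.Helper4.CB.Desc

/-!
# QI, piece E: descent of the splitting data to a finite extension
-/

set_option autoImplicit false

namespace Pool.Agent.Helper29.QI

open Matrix MvPolynomial Pool.Agent.Helper49.QU Pool.Agent.Helper49.QI
open Pool.Agent.Helper4.CB (isUnit_of_map irreducible_of_map)
open Pool.Agent.Helper28.QU (map_bil)

/-- descent of the Gram data along an injective ring homomorphism -/
theorem gram_descend {R R' : Type} [CommRing R] [CommRing R'] (ι : R →+* R')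
    (hι : Function.Injective ι) {N q : ℕ} (B : Matrix (Fin N) (Fin N) R) (P : R)
    (w : Fin q → Fin N → R') (e : ℕ) (Gm : Matrix (Fin q) (Fin q) R')
    (hw : ∀ c j, ∃ x, ι x = w c j) (hG : ∀ c d, ∃ x, ι x = Gm c d)
    (h : ∀ c d, bil (B.map ι) (w c) (w d) = (ι P) ^ e * Gm c d) (hd : ¬ ι P ∣ Gm.det) :
    ∃ (w' : Fin q → Fin N → R) (G' : Matrix (Fin q) (Fin q) R),
      (∀ c d, bil B (w' c) (w' d) = P ^ e * G' c d) ∧ ¬ P ∣ G'.det ∧ ι G'.det = Gm.det := by
  choose w' hw' using hw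
  choose G' hG' using hG
  have hdet : ι (Matrix.of G').det = Gm.det := by
    rw [RingHom.map_det]
    congr 1
    ext c d
    simp only [RingHom.mapMatrix_apply, Matrix.map_apply, Matrix.of_apply, hG']
  refine ⟨w', Matrix.of G', fun c d => hι ?_, fun hdv => hd ?_, hdet⟩
  · rw [map_bil, map_mul, map_pow, Matrix.of_apply, hG', ← h]
    congr 1
    · ext1 j
      exact hw' c j
    · ext1 j
      exact hw' d j
  · rw [← hdet]
    exact map_dvd ι hdv

theorem exists_dataQ_of {K : Type} [Field K] [CharZero K] {n N : ℕ}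
    (hC1 : ∀ (k : Type) [Field k] [CharZero k] (B : Matrix (Fin N) (Fin N) (MvPolynomial (Fin n) k)),
      B.IsSymm → ∀ P : MvPolynomial (Fin n) k, Irreducible P → ¬ Minors B P → SplitQ B P)
    (hC2 : ∀ (k : Type) [Field k] (B : Matrix (Fin N) (Fin N) (MvPolynomial (Fin n) k))
      (P Q : MvPolynomial (Fin n) k), Associated P Q → SplitQ B P → SplitQ B Q)
    (B : Matrix (Fin N) (Fin N) (MvPolynomial (Fin n) K)) (hB : B.IsSymm)
    (hr : ∃ f g : Fin 3 → Fin N, (B.submatrix f g).det ≠ 0) (G : (Fin n → ℕ) → Prop)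
    (h : ∀ P : MvPolynomial (Fin n) (AlgebraicClosure K), Irreducible P →
      G (fun j => P.degreeOf j) ∨
        SplitQ (B.map (MvPolynomial.map (algebraMap K (AlgebraicClosure K)))) P) :
    ∃ T : Finset (MvPolynomial (Fin n) (AlgebraicClosure K)),
      ∀ M : IntermediateField K (AlgebraicClosure K),
      (∀ p ∈ T, ∃ q : MvPolynomial (Fin n) M,
        MvPolynomial.map (algebraMap M (AlgebraicClosure K)) q = p) →
      ∀ P : MvPolynomial (Fin n) M, Irreducible P →
        G (fun j => P.degreeOf j) ∨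
          SplitQ (B.map (MvPolynomial.map (algebraMap K M))) P := by
  classical
  set Ω := AlgebraicClosure K
  set i : K →+* Ω := algebraMap K Ω with hi
  obtain ⟨f0, g0, hd0⟩ := hr
  set d0 : MvPolynomial (Fin n) K := (B.submatrix f0 g0).det with hdd
  have hc0 : map i d0 ≠ 0 := by
    rw [Ne, map_eq_zero_iff _ (map_injective i i.injective)]
    exact hd0
  obtain ⟨F, hF, u, hu⟩ := WfDvdMonoid.exists_factors (map i d0) hc0
  -- the data of a factor
  have hex : ∀ P : MvPolynomial (Fin n) Ω, ∃ T : Finset (MvPolynomial (Fin n) Ω), P ∈ F →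
      P ∈ T ∧ (G (fun j => P.degreeOf j) ∨
        (∃ (w : Fin 3 → Fin N → MvPolynomial (Fin n) Ω) (e : ℕ)
          (Gm : Matrix (Fin 3) (Fin 3) (MvPolynomial (Fin n) Ω)),
          (∀ c j, w c j ∈ T) ∧ (∀ c d, Gm c d ∈ T) ∧
          (∀ c d, bil (B.map (map i)) (w c) (w d) = P ^ e * Gm c d) ∧ ¬ P ∣ Gm.det) ∨
        ∃ (w : Fin 2 → Fin N → MvPolynomial (Fin n) Ω) (e : ℕ)
          (Gm : Matrix (Fin 2) (Fin 2) (MvPolynomial (Fin n) Ω)) (g k r : MvPolynomial (Fin n) Ω),
          (∀ c j, w c j ∈ T) ∧ (∀ c d, Gm c d ∈ T) ∧ g ∈ T ∧ k ∈ T ∧ r ∈ T ∧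
          (∀ c d, bil (B.map (map i)) (w c) (w d) = P ^ e * Gm c d) ∧ ¬ P ∣ Gm.det ∧ ¬ P ∣ g ∧
          g ^ 2 * Gm.det + k ^ 2 = P * r) := by
    intro P
    by_cases hP : P ∈ F
    · rcases h P (hF P hP) with h1 | ⟨w, e, Gm, h1, h2⟩ | ⟨w, e, Gm, g, k, h1, h2, h3, r, h4⟩
      · exact ⟨{P}, fun _ => ⟨Finset.mem_singleton_self _, Or.inl h1⟩⟩
      · refine ⟨{P} ∪ (Finset.univ.image (fun p : Fin 3 × Fin N => w p.1 p.2) ∪
          Finset.univ.image (fun p : Fin 3 × Fin 3 => Gm p.1 p.2)), fun _ =>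
          ⟨by simp, Or.inr (Or.inl ⟨w, e, Gm, fun c j => ?_, fun c d => ?_, h1, h2⟩)⟩⟩
        · exact Finset.mem_union_right _ (Finset.mem_union_left _
            (Finset.mem_image.2 ⟨(c, j), Finset.mem_univ _, rfl⟩))
        · exact Finset.mem_union_right _ (Finset.mem_union_right _
            (Finset.mem_image.2 ⟨(c, d), Finset.mem_univ _, rfl⟩))
      · refine ⟨{P, g, k, r} ∪ (Finset.univ.image (fun p : Fin 2 × Fin N => w p.1 p.2) ∪
          Finset.univ.image (fun p : Fin 2 × Fin 2 => Gm p.1 p.2)), fun _ =>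
          ⟨by simp, Or.inr (Or.inr ⟨w, e, Gm, g, k, r, fun c j => ?_, fun c d => ?_,
            by simp, by simp, by simp, h1, h2, h3, h4⟩)⟩⟩
        · exact Finset.mem_union_right _ (Finset.mem_union_left _
            (Finset.mem_image.2 ⟨(c, j), Finset.mem_univ _, rfl⟩))
        · exact Finset.mem_union_right _ (Finset.mem_union_right _
            (Finset.mem_image.2 ⟨(c, d), Finset.mem_univ _, rfl⟩))
    · exact ⟨∅, fun h => absurd h hP⟩
  choose T hT using hex
  refine ⟨F.toFinset.biUnion T ∪ {(u : MvPolynomial (Fin n) Ω)}, fun M hMT Q hQ => ?_⟩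
  set ι : MvPolynomial (Fin n) M →+* MvPolynomial (Fin n) Ω := map (algebraMap M Ω) with hι
  have hιinj : Function.Injective ι := map_injective _ (algebraMap M Ω).injective
  have hιa : ∀ x : MvPolynomial (Fin n) K, ι (map (algebraMap K M) x) = map i x := fun x => by
    rw [hι, MvPolynomial.map_map, ← IsScalarTower.algebraMap_eq]
  have hBM : (B.map (map (algebraMap K M))).map ι = B.map (map i) := by
    ext x y : 1
    simp only [Matrix.map_apply]
    exact hιa _
  have hsymm : (B.map (map (algebraMap K M))).IsSymm := by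
    unfold Matrix.IsSymm at hB ⊢
    rw [← Matrix.transpose_map, hB]
  have hdetM : ((B.map (map (algebraMap K M))).submatrix f0 g0).det = map (algebraMap K M) d0 := by
    rw [hdd, RingHom.map_det]
    rfl
  by_cases hQc : Q ∣ map (algebraMap K M) d0
  swap
  · right
    have : CharZero M := charZero_of_injective_algebraMap (algebraMap K M).injective
    refine hC1 M _ hsymm Q hQ (fun hm => hQc ?_)
    rw [← hdetM]
    exact hm f0 g0
  have hmem : ∀ P ∈ F, ∀ p ∈ T P, ∃ q, ι q = p := fun P hP p hp =>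
    hMT p (Finset.mem_union_left _ (Finset.mem_biUnion.mpr ⟨P, Multiset.mem_toFinset.mpr hP, hp⟩))
  obtain ⟨u', hu'⟩ := hMT (u : MvPolynomial (Fin n) Ω) (by simp)
  -- the factors over `M`
  have hfac : ∀ G : Multiset (MvPolynomial (Fin n) Ω), (∀ P ∈ G, P ∈ F) →
      ∃ G' : Multiset (MvPolynomial (Fin n) M), G'.map ι = G := by
    intro G
    induction G using Multiset.induction_on with
    | empty => exact fun _ => ⟨0, rfl⟩
    | cons P G ih =>
      intro hG
      obtain ⟨G', hG'⟩ := ih (fun P hP => hG P (Multiset.mem_cons_of_mem hP))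
      have hPF := hG P (Multiset.mem_cons_self P G)
      obtain ⟨q, hq⟩ := hmem P hPF P (hT P hPF).1
      exact ⟨q ::ₘ G', by rw [Multiset.map_cons, hG', hq]⟩
  obtain ⟨F', hF'⟩ := hfac F (fun _ h => h)
  have hu'u : IsUnit u' := isUnit_of_map (algebraMap M Ω) (by
    show IsUnit (ι u')
    rw [hι, hu']
    exact u.isUnit)
  have hc' : F'.prod * u' = map (algebraMap K M) d0 := by
    apply hιinj
    rw [map_mul, map_multiset_prod, hF', hιa, hu']
    exact hu
  have hQp : Prime Q := hQ.prime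
  rw [← hc', hu'u.dvd_mul_right] at hQc
  obtain ⟨P', hP', hQP⟩ := hQp.exists_mem_multiset_dvd hQc
  have hP'F : ι P' ∈ F := by
    rw [← hF']
    exact Multiset.mem_map_of_mem ι hP'
  have hP'irr : Irreducible P' := irreducible_of_map (algebraMap M Ω) (hF _ hP'F)
  have hass : Associated Q P' := hQ.associated_of_dvd hP'irr hQP
  rcases (hT _ hP'F).2 with h1 | ⟨w, e, Gm, mw, mG, h1, h2⟩ |
    ⟨w, e, Gm, g, k, r, mw, mG, mg, mk, mr, h1, h2, h3, h4⟩
  · left
    have hdeg : ∀ j, (ι P').degreeOf j = Q.degreeOf j := by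
      intro j
      rw [hι, degreeOf_def, degrees_map_of_injective _ (algebraMap M Ω).injective,
        ← degreeOf_def]
      obtain ⟨v, hv⟩ := hass
      obtain ⟨c, hc, hvc⟩ := isUnit_iff_eq_C_of_isReduced.mp v.isUnit
      have h2 : P' = Q * C c := by rw [← hv, hvc]
      have h3 : Q = P' * C (c⁻¹) := by
        rw [h2, mul_assoc, ← C_mul, mul_inv_cancel₀ (isUnit_iff_ne_zero.mp hc), C_1, mul_one]
      apply le_antisymm
      · rw [h2]; exact degreeOf_mul_C_le Q j c
      · conv_lhs => rw [h3]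
        exact degreeOf_mul_C_le P' j _
    have h2 : (fun j => (ι P').degreeOf j) = fun j => Q.degreeOf j := funext hdeg
    rw [← h2]
    exact h1
  · right
    refine hC2 M _ P' Q hass.symm (Or.inl ?_)
    rw [← hBM] at h1
    obtain ⟨w', G', k1, k2, -⟩ := gram_descend ι hιinj _ P' w e Gm
      (fun c j => hmem _ hP'F _ (mw c j)) (fun c d => hmem _ hP'F _ (mG c d)) h1 h2
    exact ⟨w', e, G', k1, k2⟩
  · right
    refine hC2 M _ P' Q hass.symm (Or.inr ?_)
    rw [← hBM] at h1
    obtain ⟨w', G', k1, k2, k3⟩ := gram_descend ι hιinj _ P' w e Gm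
      (fun c j => hmem _ hP'F _ (mw c j)) (fun c d => hmem _ hP'F _ (mG c d)) h1 h2
    obtain ⟨g', rfl⟩ := hmem _ hP'F _ mg
    obtain ⟨k', rfl⟩ := hmem _ hP'F _ mk
    obtain ⟨r', rfl⟩ := hmem _ hP'F _ mr
    refine ⟨w', e, G', g', k', k1, k2, fun hd => h3 (map_dvd ι hd), r', hιinj ?_⟩
    rw [map_mul, ← h4, map_add, map_mul, map_pow, map_pow, k3]

end Pool.Agent.Helper29.QI
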