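import Pool.Agent.Helper29.QI.Desc
import Pool.Agent.Helper11.QI.C

/-!
# QI, piece E: the literal statement
-/

set_option autoImplicit false

namespace Pool.Agent.Helper29.QI

open Matrix Pool.Agent.Helper49.QU Pool.Agent.Helper49.QI

/-- **E.** descent to a finite extension: finitely many polynomials over the algebraic closure such
that over every intermediate field `M` over which they are defined the hypothesis holds over `M` -/
theorem exists_dataQ {K : Type} [Field K] [CharZero K] {n N : ℕ}
    (B : Matrix (Fin N) (Fin N) (MvPolynomial (Fin n) K)) (hB : B.IsSymm)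
    (hr : ∃ f g : Fin 3 → Fin N, (B.submatrix f g).det ≠ 0) (G : (Fin n → ℕ) → Prop)
    (h : ∀ P : MvPolynomial (Fin n) (AlgebraicClosure K), Irreducible P →
      G (fun j => P.degreeOf j) ∨
        SplitQ (B.map (MvPolynomial.map (algebraMap K (AlgebraicClosure K)))) P) :
    ∃ T : Finset (MvPolynomial (Fin n) (AlgebraicClosure K)),
      ∀ M : IntermediateField K (AlgebraicClosure K),
      (∀ p ∈ T, ∃ q : MvPolynomial (Fin n) M,
        MvPolynomial.map (algebraMap M (AlgebraicClosure K)) q = p) →
      ∀ P : MvPolynomial (Fin n) M, Irreducible P →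
        G (fun j => P.degreeOf j) ∨
          SplitQ (B.map (MvPolynomial.map (algebraMap K M))) P :=
  exists_dataQ_of
    (fun _ _ _ B hB P hP hm => Pool.Agent.Helper11.QI.splitQ_of_minor B hB P hP hm)
    (fun _ _ B _ _ hPQ hs => Pool.Agent.Helper11.QI.splitQ_of_associated B hPQ hs)
    B hB hr G h

end Pool.Agent.Helper29.QI
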